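import Pool.Agent.U282.PL.Abs

/-!
# The exact asymptotic proportion of the absolutely Hodge classes on the varieties `X^n × Z`

Let `T` be a Hodge theory on a class of smooth projective varieties (in the intended use the
varieties are all smooth projective complex varieties and `T` is `X ↦ H(X, ℚ)`), and `D` a family of
conjugate theories with comparison isomorphisms (the theories `X ↦ H(X^σ, ℚ)` for the automorphisms
`σ` of `ℂ`, with the comparison isomorphisms given by de Rham cohomology and by `ℓ`-adic cohomology
for all primes `ℓ`). Let `X` and `Z` be arbitrary varieties with nonzero cohomology.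

Let `V_H` be the subspace of `H(Z, ℚ)` spanned by the images of the cohomology of all powers of `X`
under the correspondences given by Hodge classes on the varieties `X^n × Z`, and `V_A ⊆ V_H` the
same for the absolutely Hodge classes. (`V_H` is the largest part of `H(Z)` which belongs to the
tensor category of Hodge structures generated by `H(X)` and the Tate structures; `V_A` is the part
given by the largest direct factor of the motive of `Z` for absolute Hodge cycles which belongs to
the tensor category generated by the motive of `X` and the Tate motives.)

*Theorem.* There is `I` in `{1, 2, …, ∞}` such that, for the numbers `h` and `a` of linearly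
independent Hodge classes and absolutely Hodge classes:

1. `h(X^n) / a(X^n)` tends to `I`, and `I = 1` if and only if all Hodge classes on all powers of `X`
   are absolutely Hodge;
2. `h(X^n × Z) / a(X^n × Z)` tends to `I dim V_H / dim V_A`, with `dim V_A ≥ 1`;
3. all Hodge classes on all varieties `X^n × Z` are absolutely Hodge if and only if this limit is `1`,
   that is, if and only if `I = 1` and `V_A = V_H`.

So the proportion of the absolutely Hodge classes among the Hodge classes on `X^n × Z` has a limit for
all `X` and `Z`, and the limit is known: it is the rational number `dim V_A / (I dim V_H)`. In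
particular one Hodge class on one `X^n × Z` which is not absolutely Hodge forces the proportion
`1 / (dim V_A + 1) ≥ 1 / (b(Z) + 1)` of exceptional classes, and one exceptional class on a power of
`X` forces at least one half of the Hodge classes on `X^n × Z` to be exceptional, for every `Z`.
-/

open CategoryTheory AlgebraicGeometry

universe u

namespace Pool.Agent.Results.MP_4e1cf2_ag.ExactIndexOfProducts

open Pool.Agent.H914 Pool.Agent.H914.VarClass Pool.Agent.H914.VarClass.Obj
  Pool.Agent.H914.WeilCohomology Pool.Agent.Y121.AHS Pool.Agent.U282.PL
open Pool.Agent.Y133.Half (pw)

variable {k : Type u} [Field k] {𝒱 : VarClass k} {ops : CycleOps 𝒱}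

/-- **The exact index of the products**: `pw X n` is the product of `n + 1` copies of `X`. -/
theorem result (T : HodgeTheory ops) (D : Full.Conjugates T) (X Z : 𝒱.Obj)
    [Nontrivial (T.W.H X)] [Nontrivial (T.W.H Z)] :
    0 < absPart D X Z ∧ absPart D X Z ≤ hodgePart T X Z ∧
    ∃ I : ℕ∞, 1 ≤ I ∧
      Full.HasIndex (fun n => hodgeDim T (pw X n)) (fun n => Full.absDim D (pw X n)) I ∧
      (I = 1 ↔ ∀ n, AllAbs D (pw X n)) ∧
      HasRationalIndex (fun n => hodgeDim T ((pw X n).prod Z))
        (fun n => Full.absDim D ((pw X n).prod Z)) (I * hodgePart T X Z) (absPart D X Z) ∧
      (I * hodgePart T X Z = absPart D X Z ↔ ∀ n, AllAbs D ((pw X n).prod Z)) :=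
  abs_law T D X Z

end Pool.Agent.Results.MP_4e1cf2_ag.ExactIndexOfProducts
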