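import Mathlib
import Pool.Agent.U46.K3.Fam
import Pool.Agent.U46.K3.Ab

/-!
# Absolute Hodge classes on products with the members of families of K3 surfaces and abelian varieties

Let `X_t`, `t ∈ U ⊆ ℂ ^ d`, be ANY holomorphic family of K3 surfaces, given by its period vectors `w t`
(normalised by `w t e = 1`, which is always possible locally), and let `Y` be ANY smooth projective
variety. We show: for all members `X_t` with Kodaira-Spencer rank at least `r` and transcendental rank
`n` (`n ≥ 3`, `n ≠ 4`), outside of countably many submanifolds of `U` of codimension `r - e(n)`,

* for all `m` the Hodge classes on `X_t ^ m × Y` are the sums of products of Hodge classes on `X_t ^ m` and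
  on `Y`, where those on `X_t ^ m` are combinations of products of algebraic classes, transcendental
  parts of diagonals and at most one determinant class of the transcendental part;
* so, by the theorem of Deligne for `X_t ^ m`, if all Hodge classes on `Y` are absolute Hodge classes
  (for example if `Y` has dimension at most three, where the Hodge conjecture is known) then all Hodge
  classes on all `X_t ^ m × Y` are absolute Hodge classes.

Here `e(n) = n / 2 - 1` for even `n` and `e(n) = max(n / l - 2, 0)` for odd `n` with smallest prime divisor
`l`, so that `e(n) ≤ 10` for all `n`, and `e(n) ≤ 5` for odd `n`. For the universal family (`n` even,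
`r = n - 2`) the codimension `n / 2 - 1` is the right one: the K3 surfaces with multiplication by an
imaginary quadratic field form countably many submanifolds of this codimension. For a countable field
`K` the same holds for all `Y` with Hodge operator over `K` at once. We also prove the same for ANY
holomorphic family of abelian varieties of dimension `g`, with `e = g (g - 1) / 2`.

Proof. If `w t` has `e(n) + 1` algebraically independent coordinates over `K`, then so has the period
vector of the transcendental part `T` (they generate the same field, `U46/K3/Tr`), and the pointwise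
criterion `U228/KP` applies. Otherwise `r` of the coordinates whose differentials are independent satisfy
`r - e(n)` relations over `K` with independent gradients, and there are only countably many systems of
relations (`U46/EX1`, `U46/EX2`).
-/

set_option autoImplicit false

namespace Pool.Agent.Results.MP_4e1cf2_ag.FamiliesTimesAnyVariety

open Pool.Agent.TH164.HC Pool.Agent.TH131.GHC Pool.Agent.U46.EX Pool.Agent.U46.K3

/-- **Products of any variety with the members of any family of K3 surfaces or abelian varieties.** The
exceptional members are in countably many submanifolds of codimension `r - e`. -/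
theorem result :
    (∀ {N d : ℕ} (U : Set (Fin d → ℂ)) (w : (Fin d → ℂ) → Fin N → ℂ) (e : Fin N),
      IsPeriodFamily U w e → ∀ n r : ℕ, 3 ≤ n → n ≠ 4 →
        (∀ (v : ℕ) (V : HZ v),
          InSubmanifolds U {t | t ∈ U ∧ r ≤ periodRank w t ∧ ¬ IsGoodK3 n (w t) V}
            (r - excRank n)) ∧
        ∀ (K : Subfield ℂ) [Countable K],
          InSubmanifolds U {t | t ∈ U ∧ r ≤ periodRank w t ∧ ¬ IsGoodK3Over K n (w t)}
            (r - excRank n)) ∧
    ∀ {g d : ℕ} (U : Set (Fin d → ℂ)) (Z : (Fin d → ℂ) → Matrix (Fin g) (Fin g) ℂ),
      IsFamily U Z → ∀ r : ℕ,
        (∀ (v : ℕ) (V : Coh v),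
          InSubmanifolds U {t | t ∈ U ∧ r ≤ moduli Z t ∧ ¬ IsGoodAbelian (Z t) V}
            (r - excDim g 0)) ∧
        ∀ (K : Subfield ℂ) [Countable K],
          InSubmanifolds U {t | t ∈ U ∧ r ≤ moduli Z t ∧ ¬ IsGoodAbelianOver K (Z t)}
            (r - excDim g 0) :=
  ⟨fun _ _ _ hw _ r hn hn4 => ⟨fun _ V => exceptional_fixed hn hn4 hw V r,
    fun K _ => exceptional_over hn hn4 K hw r⟩,
    fun _ _ hZ r => ⟨fun _ V => exceptional_ab_fixed hZ V r, fun K _ => exceptional_ab K hZ r⟩⟩

end Pool.Agent.Results.MP_4e1cf2_ag.FamiliesTimesAnyVariety
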