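import Pool.Agent.U231.HF.Fin

/-!
# Absolutely Hodge classes on the products of an arbitrary variety with Fermat varieties

Let `Z` be **any** smooth projective complex variety, and let `B ≥ 1` be a bound for the dimensions of the simple Hodge
substructures **of CM type** of its rational cohomology. For instance any bound of the Betti numbers will do; and `B = 1` if the
only simple substructures of CM type are the lines of Hodge classes. Let `X_i` be products of Fermat varieties `x_0 ^ N_i + ⋯ + x_{n+1} ^ N_i = 0` of the same prime
degree `N_i` (for instance a power of a Fermat variety), and let the degrees `N_i` be different. Let `s_i` be the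
number of all coordinates used, so `s_i = n + 2` for one Fermat variety of dimension `n`, and the sum of the
numbers `n + 2` of the factors in general.

**Theorem.** Suppose for all `i` that `N_i > s_i B + 1`, or only that every odd divisor `m ≤ s_i` of `N_i - 1` satisfies
`m B < N_i - 1`. Then every Hodge class on `Y = X_1 × ⋯ × X_r × Z` is a linear combination of
external products of algebraic classes on the `X_i` and of Hodge classes on `Z`; and **every Hodge class on `Y` is
absolutely Hodge if and only if every Hodge class on `Z` is absolutely Hodge**.

So for given `Z` and given dimensions the theorem applies to all primes `N_i` with finitely many exceptions. It applies for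
all dimensions of the Fermat varieties and all numbers of them if a power of `2` which divides `N_i - 1` is greater than `B`;
in particular, for `B = 1` it applies **to all odd primes `N_i`, without any condition**. Nothing is assumed about `Z` and its Hodge structure: it need not be
of abelian type, its Mumford-Tate group need not be known, and no monodromy or genericity is used. If `Z` is
for instance a surface or a threefold then all Hodge classes on `Y` are algebraic, hence absolutely Hodge.

Absolutely Hodge is meant in the full sense of the problem: `D : Full.Conjugates T` is the family of the conjugate
theories `X ↦ H(X^σ, ℚ)`, each with all comparison isomorphisms (de Rham, and étale for all primes `ℓ`), and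
`IsAbsHodge` asks, for every conjugate theory, for one Hodge class which corresponds to the given class with
respect to all comparison isomorphisms.

**The formal setting.** The framework is that of the starting files `Pool.Agent.Y121.AHS`. A `HodgeTheory` is a Weil cohomology
theory `W` with rational coefficients with a Hodge decomposition `pq` of the cohomology `HL W ℂ X` with complex coefficients,
compatible with products, pull-backs, push-forwards and cycle classes, with polarisations.

The middle cohomology of a Fermat variety `X` of degree `N` and dimension `n` is, with complex coefficients, the direct sum of
the eigenspaces `V_a` of the group `μ_N ^ (n+2)`, where `a = (a_0, …, a_{n+1})` consists of residues modulo `N` different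
from `0` with the sum `0` (and of the class of linear sections, with the empty multiset `a`). The Hodge type of `V_a` is
`(p, q)` with `p - q = ∑_j (2 ⟨a_j / N⟩ - 1) = (1 / N) ∑_j saw (a_j)` (up to the sign), where `saw (b) = 2 b - N` for
`0 < b < N`. If an automorphism of `ℂ` raises the roots of unity of order `N` to the power `c`, then it maps `V_a` to
`V_{c a}`. If the multisets `a` and `-a` are equal then `V_a` is spanned by the classes of linear subspaces (Ran, Shioda). For
products of Fermat varieties of the degree `N` one takes the tensor products, and the multisets are added; if the
multiset is symmetric then the classes are algebraic by Shioda's inductive structure. This is what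
`IsFermatDecomposition` says, and nothing else is assumed of the `X_i` (and that there is a zero-cycle of nonzero degree).

`HasPieces T B Z` says that `H(Z, ℚ)` is a direct sum of Hodge substructures `U`, each of which has dimension at most `B` or
has no pure element `v ≠ 0` in `U_ℂ`. Here `v` is pure if every conjugate `σ(v)`, `σ ∈ Aut(ℂ)`, is a sum of elements of types
`(p, q)` with one value of `p - q`. The Mumford-Tate group acts on the line of a pure element by a character, so a polarisable
`U` has such elements if and only if it has a substructure of CM type.

**The proof.** Let `y` be a Hodge class on `Y = X_1 × ⋯ × X_r × Z`. Suppose that `y` has a component different from `0` for the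
characters `a_i` of the `X_i`, where `a = a_1` is not symmetric. The contractions `v` of this component with linear
forms are elements of `H(Z, ℂ)`. Let `G` be the operator which is multiplication by `2 ^ (p - q)` on
`H ^ (p, q)`; it is a ring automorphism, commutes with pull-backs and fixes `y`. For automorphisms `t` of the field `ℂ` the
conjugates `t G t⁻¹` act on `v` by known scalars: since `y` is rational and a Hodge class, the exponent is `- ∑_i S_i (t) / N_i`,
where `S_i (t)` is the sum of the sawtooth function over the multiset `c_i (t) a_i`, and `c_i` is the cyclotomic
character modulo `N_i`. The same is true for the projections of `v` to the Hodge substructures `U` in the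
decomposition of `H(Z, ℚ)`; so these are pure, and one which is different from `0` is in a substructure `U` with `dim U ≤ B`; we
replace `v` by it. Now choose automorphisms `g` of `ℂ` with a given value of `c_1 (g)` and with `c_i (g) = 1` for `i ≠ 1`.
The vectors `g v` are again in `U_ℂ`, and two of them have different eigenvalues for some `t G t⁻¹`, unless
they have the same function `t ↦ S_1 (t g)`. So these vectors are linearly independent, and the stabilizer `H` of
the function `t ↦ S_1 (t)` in `(ℤ/N_1)ˣ` has index at most `dim U ≤ B`. The function is the convolution of the sawtooth
function with the odd part of the multiplicity function of `a`. Since the generalized Bernoulli numbers `B_{1,χ}` of the odd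
characters are different from `0`, the odd part is determined by the convolution, so it is invariant under `H`. It is not
zero, since `a` is not symmetric. So `-1` is not in `H`, the order `m` of `H` is an odd divisor of `N_1 - 1`, and the support
of `a` contains a coset of `H`, so `m ≤ s_1`. But `m B ≥ N_1 - 1`, a contradiction. So only symmetric, algebraic
characters occur.

helper231. The nonvanishing of the Bernoulli numbers is from the starting file `Pool.Agent.H916R2.Indep` (Mathlib has
Dirichlet's theorem on `L(1, χ)`), the automorphisms of `ℂ` with given cyclotomic characters are from
`Pool.Agent.Helper475.ExistsRingequivPow`.
-/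

set_option autoImplicit false

open CategoryTheory AlgebraicGeometry

universe u

namespace Pool.Agent.Results.MP_4e1cf2_ag.FermatTimesArbitrary

open Pool.Agent.H914 Pool.Agent.H914.VarClass Pool.Agent.H914.WeilCohomology
  Pool.Agent.Y121.AHS Pool.Agent.U231.HF

/-- Every Hodge class on `Y` is absolutely Hodge. -/
def HodgeAreAbs {k : Type u} [Field k] {𝒱 : VarClass k} {ops : CycleOps 𝒱}
    {T : HodgeTheory ops} (D : Full.Conjugates T) (Y : 𝒱.Obj) : Prop :=
  ∀ j c, IsHodge T Y j c → Full.IsAbsHodge D Y j c

/-- **Hodge classes and absolutely Hodge classes on the products of an arbitrary variety `Z` with
varieties of Fermat type of different prime degrees.** -/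
theorem result {k : Type u} [Field k] {𝒱 : VarClass k} {ops : CycleOps 𝒱} (T : HodgeTheory ops)
    (D : Full.Conjugates T) {ι : Type} (N s : ι → ℕ) (X : ι → 𝒱.Obj)
    (hX : AreFermatFactors T N s X) (Z : 𝒱.Obj) {B : ℕ} (hB : 0 < B) (hZ : HasPieces T B Z)
    (hN : ∀ i, IsLarge (N i) (s i) B) (L : List ι) (hL : L.Nodup) :
    (∀ j c, IsHodge T (productOf X Z L) j c →
      IsExtSum T.W X Z (fun z => ∃ j, IsHodge T Z j z) L c) ∧
      (HodgeAreAbs D (productOf X Z L) ↔ HodgeAreAbs D Z) :=
  ⟨fun _ _ hc => hodge_span hX hB hZ hN hL hc, hodge_abs_iff D hX hB hZ hN hL⟩

end Pool.Agent.Results.MP_4e1cf2_ag.FermatTimesArbitrary
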