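import Pool.Agent.U483.KP.Ah

/-!
# Hodge classes, absolute Hodge classes and the Grothendieck ring of varieties

`𝓜` is the semisimple tensor category of the pure motives over `k` for absolute Hodge cycles (Deligne), for a field
`k ⊆ ℂ` (for instance `k = ℂ`), and `H.h i w X = gr^W_w h^i_c(X)` for all separated schemes `X` of finite type over `k`
(Deligne, Jannsen). `R` is the Betti realization, with the Hodge classes and the absolute Hodge classes in the twists
`V(A)(m)`; for a smooth projective variety `X` over `ℂ` and `A = h^(2 p)(X)`, `m = p` these are the classes of the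
problem. The structures `CompactCoh`, `IsMultiplicative` and `HodgeRealization` list the known properties
which are used. `AllAbsolute A` says that all Hodge classes in the `V(A)(m)` are absolute Hodge classes.

* For a smooth projective `X` all Hodge classes are absolute Hodge classes if and only if the class of `X` in the
  Grothendieck group `K_0(Var_k)` of varieties is in the subgroup generated by the classes of the (arbitrary, open or
  singular) schemes `Y` for which all Hodge classes in all `gr^W_w H^i_c(Y)(m)` are absolute Hodge classes. So it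
  depends only on the class in `K_0(Var_k)` whether all Hodge classes on `X` are absolute Hodge classes.
* Let `𝒜` be a class of motives which is closed under direct factors, direct sums and tensor products, which contains
  the Lefschetz motive and for whose members all Hodge classes are absolute Hodge classes (the motives of abelian type:
  Deligne). If the pieces of the schemes of dimension at most `D` (`D = 1`: curves) and of the schemes of a class `B`
  (abelian varieties, K3 surfaces, Fermat varieties) are in `𝒜`, then all the pieces of the schemes which can be built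
  (`Built`) from them, and all `h^i(X)` for the smooth projective `X` whose classes are in the subgroup generated by
  these, are in `𝒜`; so all Hodge classes on these `X` are absolute Hodge classes, in arbitrary dimension, and the same
  holds for the products of them.

It is not known that `𝓜` is a full subcategory of the category of Hodge structures. If some Hodge class on `X` is not
absolute then there is a direct factor `S` of an `h^i(X)` with such a Hodge class and without morphisms to the good
motives; the additive function `Y ↦ ∑ (-1)^n dim Hom(S, gr^W_i h^n_c(Y))` on `K_0(Var_k)` is zero on the classes of the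
good `Y`, but not on the class of `X`.
-/

set_option autoImplicit false

open CategoryTheory AlgebraicGeometry Pool.Agent.Y116.UV Pool.Agent.U483.KM Pool.Agent.U483.GU
  Pool.Agent.U483.KP

namespace Pool.Agent.Results.MP_4e1cf2_ag.GrothendieckRing

universe w x

/-- All Hodge classes in all `gr^W_w H^i_c(Y)(m)` are absolute Hodge classes. -/
def AllHodgeAbsolute {k : Type} [Field k] {𝓜 : Type w} [Category.{x} 𝓜] [Abelian 𝓜] [Linear ℚ 𝓜]
    (H : CompactCoh.{w, x} k 𝓜) (R : HodgeRealization.{w, x} 𝓜) (Y : Sch k) : Prop :=
  ∀ i w : ℤ, R.AllAbsolute (H.h i w Y)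

theorem result (k : Type) [Field k] (𝓜 : Type w) [Category.{x} 𝓜] [Abelian 𝓜] [Linear ℚ 𝓜]
    [MonoidalCategory 𝓜] (H : CompactCoh.{w, x} k 𝓜) (L : 𝓜) (hH : IsMultiplicative H L)
    (R : HodgeRealization.{w, x} 𝓜) :
    -- Hodge classes and absolute Hodge classes in terms of the class in `K_0(Var_k)`
    (∀ X : Var k, SmoothProjective X.1 → ((∀ i : ℤ, R.AllAbsolute (H.h i i X.1)) ↔
      cls X ∈ AddSubgroup.closure {c | ∃ Y : Var k, AllHodgeAbsolute H R Y.1 ∧ c = cls Y})) ∧
    (∀ X X' : Var k, SmoothProjective X.1 → SmoothProjective X'.1 → cls X = cls X' →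
      ((∀ i : ℤ, R.AllAbsolute (H.h i i X.1)) ↔ ∀ i : ℤ, R.AllAbsolute (H.h i i X'.1))) ∧
    -- varieties built from curves, abelian varieties, ... (Deligne)
    (∀ (𝒜 : 𝓜 → Prop), IsTensorThick 𝒜 → 𝒜 L → (∀ A, 𝒜 A → R.AllAbsolute A) →
      ∀ (B : Sch k → Prop), (∀ Y, FT True Y → B Y → H.In 𝒜 Y) → ∀ D : ℕ,
      (∀ Y : Sch k, FT True Y → topologicalKrullDim Y.left ≤ D → H.In 𝒜 Y) →
      (∀ Y, Built k B D Y → H.In 𝒜 Y ∧ AllHodgeAbsolute H R Y) ∧
        ∀ X : Var k, SmoothProjective X.1 →
          cls X ∈ AddSubgroup.closure {c | ∃ Y : Var k, Built k B D Y.1 ∧ c = cls Y} →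
          ∀ i : ℤ, 𝒜 (H.h i i X.1) ∧ R.AllAbsolute (H.h i i X.1)) := by
  have hT := thick_ah R
  have key : ∀ X : Var k, SmoothProjective X.1 → ((∀ i : ℤ, R.AllAbsolute (H.h i i X.1)) ↔
      cls X ∈ AddSubgroup.closure {c | ∃ Y : Var k, AllHodgeAbsolute H R Y.1 ∧ c = cls Y}) := by
    intro X hX
    refine Iff.trans ⟨fun h i w => ?_, fun h i => h i i⟩ (in_iff_mem H hT hX)
    by_cases hiw : i = w
    · subst hiw
      exact h i
    · exact hT.zero _ (H.pure X.1 hX i w hiw)
  refine ⟨key, fun X X' hX hX' h => ?_, fun 𝒜 h𝒜 hL hA B hB D hD => ⟨fun Y hY => ?_,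
    fun X hX h i => ?_⟩⟩
  · rw [key X hX, key X' hX', h]
  · have h1 := (in_built hH h𝒜 hL hB hD hY).2
    exact ⟨h1, fun i w => hA _ (h1 i w)⟩
  · have h1 := in_of_built hH h𝒜 hL hB hD hX h i i
    exact ⟨h1, hA _ h1⟩

end Pool.Agent.Results.MP_4e1cf2_ag.GrothendieckRing
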