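import Pool.Agent.U228.AH.Main

/-!
# One explicit power of a variety decides whether its Hodge classes are absolutely Hodge

Let `X` be a smooth projective complex variety of dimension `d`, let `t` be its transcendental
Betti number: the dimension of `H(X, ℚ)` minus the dimension of the space spanned by the Hodge
classes of `X`, and let `N = max(4, (d t) ^ t)`.

If all Hodge classes on the one variety `X ^ N` are absolutely Hodge, then

* all Hodge classes on all powers of `X` are absolutely Hodge, and
* all Hodge classes on `Y` are absolutely Hodge, for every variety `Y` whose cohomology is a direct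
  summand of cohomology of powers of `X` by correspondences given by absolutely Hodge classes (that
  is, for all varieties whose motives for absolute Hodge cycles belong to the tensor category
  generated by `X`). For several varieties `X i` take `X = ∏ X i`.

The theorem is proved for an arbitrary Hodge theory `T` on a class of smooth projective varieties
and an arbitrary family `D` of conjugate theories and comparison isomorphisms. In the intended use
`T` is `X ↦ H(X, ℚ)`, the conjugate theories are `X ↦ H(X^σ, ℚ)` for the automorphisms `σ` of `ℂ`,
and the comparison isomorphisms are given by de Rham cohomology and by `ℓ`-adic cohomology for all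
primes `ℓ`.
-/

open CategoryTheory AlgebraicGeometry

universe u

namespace Pool.Agent.Results.MP_4e1cf2_ag.OnePowerDecides

open Pool.Agent.H914 Pool.Agent.H914.VarClass Pool.Agent.H914.VarClass.Obj
  Pool.Agent.H914.WeilCohomology Pool.Agent.Y121.AHS Pool.Agent.N996.FP
open Pool.Agent.Y133.Half (pw)
open Pool.Agent.U228.AH

variable {k : Type u} [Field k] {𝒱 : VarClass k} {ops : CycleOps 𝒱}

/-- **One power decides.** -/
theorem result (T : HodgeTheory ops) (D : Conjugates T) (X : 𝒱.Obj) (ψ : RForm T.W X)
    (hψ : IsPolarisation T X ψ) (t N : ℕ) (ht : t = transBetti T X)
    (hN : N = max 4 ((X.dim * t) ^ t)) (h : HodgeIsAbs D (pw X (N - 1))) :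
    (∀ n, HodgeIsAbs D (pw X n)) ∧ ∀ Y : 𝒱.Obj, FromPowersAbs D X Y → HodgeIsAbs D Y := by
  subst ht
  have h1 := abs_pw hψ (Or.inr (Or.inr hN)) h
  exact ⟨h1, fun _ hY => abs_from h1 hY⟩

end Pool.Agent.Results.MP_4e1cf2_ag.OnePowerDecides
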